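import Mathlib

/-!
# Alternating sums of Apery polynomials and cubes of Delannoy polynomials: the core identities
-/

set_option autoImplicit false

namespace Q279.AP

open Finset

/-- `C(n, a) C(n + a, a)` -/
def f (a n : ℕ) : ℤ := (n.choose a : ℤ) * ((n + a).choose a : ℤ)

/-- the previous one -/
def f' : ℕ → ℕ → ℤ
  | 0, _ => 0
  | (a + 1), n => f a n

@[simp] lemma f'_zero (n : ℕ) : f' 0 n = 0 := rfl
@[simp] lemma f'_succ (a n : ℕ) : f' (a + 1) n = f a n := rfl

lemma f_zero (n : ℕ) : f 0 n = 1 := by simp [f]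

lemma f_gt {a n : ℕ} (h : n < a) : f a n = 0 := by
  unfold f; rw [Nat.choose_eq_zero_of_lt h]; simp

lemma ch1 (n a : ℕ) : (n.choose (a + 1) : ℤ) * (a + 1) = (n.choose a : ℤ) * ((n : ℤ) - a) := by
  rcases le_or_gt a n with h | h
  · have := Nat.choose_succ_right_eq n a
    have h2 : (((n - a : ℕ)) : ℤ) = (n : ℤ) - a := by omega
    rw [← h2]
    exact_mod_cast this
  · rw [Nat.choose_eq_zero_of_lt h, Nat.choose_eq_zero_of_lt (by omega)]; simp

lemma ch2 (n a : ℕ) : ((n + 1).choose (a + 1) : ℤ) * (a + 1) = (n + 1) * (n.choose a : ℤ) := by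
  have := Nat.add_one_mul_choose_eq n a
  exact_mod_cast this.symm

lemma ch3 (n a : ℕ) : ((n + 1).choose a : ℤ) * ((n : ℤ) + 1 - a) = (n.choose a : ℤ) * (n + 1) := by
  rcases le_or_gt a (n + 1) with h | h
  · have := Nat.choose_mul_succ_eq n a
    have h2 : (((n + 1 - a : ℕ)) : ℤ) = (n : ℤ) + 1 - a := by omega
    rw [← h2]
    exact_mod_cast this.symm
  · rw [Nat.choose_eq_zero_of_lt h, Nat.choose_eq_zero_of_lt (show n < a by omega)]; simp

lemma alpha (a n : ℕ) : ((a : ℤ) + 1) ^ 2 * f (a + 1) n = ((n : ℤ) - a) * (n + a + 1) * f a n := by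
  unfold f
  have h1 := ch1 n a
  have h2 := ch2 (n + a) a
  rw [show n + (a + 1) = n + a + 1 by ring]
  push_cast at h2
  linear_combination ((n + a + 1).choose (a + 1) : ℤ) * ((a : ℤ) + 1) * h1 +
    (n.choose a : ℤ) * ((n : ℤ) - a) * h2

lemma beta (a n : ℕ) :
    ((a : ℤ) + 1) ^ 2 * f (a + 1) (n + 1) = ((n : ℤ) + 1 + a) * (n + 2 + a) * f a n := by
  unfold f
  have h1 := ch2 n a
  have h2 := ch2 (n + a + 1) a
  have h3 := ch3 (n + a) a
  rw [show n + 1 + (a + 1) = n + a + 1 + 1 by ring]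
  push_cast at h2 h3
  linear_combination ((n + a + 1 + 1).choose (a + 1) : ℤ) * ((a : ℤ) + 1) * h1 +
    (n.choose a : ℤ) * ((n : ℤ) + 1) * h2 + (n.choose a : ℤ) * ((n : ℤ) + a + 2) * h3

lemma gamma (a n : ℕ) :
    ((a : ℤ) + 1) ^ 2 * f (a + 1) n = ((n : ℤ) - a) * (n + 1 - a) * f a (n + 1) := by
  unfold f
  have h1 := ch1 n a
  have h2 := ch2 (n + a) a
  have h3 := ch3 n a
  have h4 := ch3 (n + a) a
  rw [show n + (a + 1) = n + a + 1 by ring, show n + 1 + a = n + a + 1 by ring]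
  push_cast at h2 h4
  linear_combination ((n + a + 1).choose (a + 1) : ℤ) * ((a : ℤ) + 1) * h1 +
    (n.choose a : ℤ) * ((n : ℤ) - a) * h2 -
    ((n + a + 1).choose a : ℤ) * ((n : ℤ) - a) * h3 - (n.choose a : ℤ) * ((n : ℤ) - a) * h4

/-- The three-term recurrence. -/
lemma rec3 (a n : ℕ) : ((n : ℤ) + 2) * f a (n + 2) + (n + 1) * f a n =
    (2 * n + 3) * (f a (n + 1) + 2 * f' a (n + 1)) := by
  rcases a with _ | a
  · simp [f_zero]; ring
  · have h1 := alpha a (n + 1)
    have h2 := beta a (n + 1)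
    have h3 := gamma a n
    push_cast at h1 h2 h3
    have h0 : ((a : ℤ) + 1) ^ 2 ≠ 0 := by positivity
    apply mul_left_cancel₀ h0
    rw [f'_succ]
    linear_combination ((n : ℤ) + 2) * h2 + ((n : ℤ) + 1) * h3 - (2 * (n : ℤ) + 3) * h1

/-- `P_a` for `N = n + 1`. -/
def P (a n : ℕ) : ℤ := ((n + 1).choose a : ℤ) * ((n + a).choose a : ℤ)

/-- `Q_a` for `N = n + 1`. -/
def Q : ℕ → ℕ → ℤ
  | 0, _ => 0
  | (a + 1), n => (n.choose a : ℤ) * ((n + a + 1).choose (a + 1) : ℤ)

/-- `R_a` for `N = n + 1`. -/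
def R : ℕ → ℕ → ℤ
  | 0, _ => 0
  | (a + 1), n => (n.choose a : ℤ) * ((n + a + 1).choose a : ℤ)

lemma f_eq (a n : ℕ) : f a n = P a n - Q a n := by
  rcases a with _ | a
  · simp [f, P, Q]
  · unfold f P Q
    rw [Nat.choose_succ_succ n a, show n + (a + 1) = n + a + 1 by ring]
    push_cast; ring

lemma f_eq' (a n : ℕ) : f a (n + 1) = P a n + Q a n := by
  rcases a with _ | a
  · simp [f, P, Q]
  · unfold f P Q
    have h1 : ((n + 1 + (a + 1)).choose (a + 1) : ℤ) =
        ((n + a + 1).choose a : ℤ) + ((n + a + 1).choose (a + 1) : ℤ) := by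
      rw [show n + 1 + (a + 1) = (n + a + 1) + 1 by ring, Nat.choose_succ_succ (n + a + 1) a]
      push_cast; ring
    rw [h1, show n + (a + 1) = n + a + 1 by ring]
    have h2 := ch2 n a
    have h3 := ch1 (n + a + 1) a
    push_cast at h3
    have h0 : ((a : ℤ) + 1) ≠ 0 := by positivity
    apply mul_left_cancel₀ h0
    linear_combination ((n + a + 1).choose a : ℤ) * h2 - (n.choose a : ℤ) * h3

lemma aP (a n : ℕ) : (a : ℤ) * P a n = (n + 1) * Q a n := by
  rcases a with _ | a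
  · simp [Q]
  · unfold P Q
    have h2 := ch2 n a
    rw [show n + (a + 1) = n + a + 1 by ring]
    push_cast
    linear_combination ((n + a + 1).choose (a + 1) : ℤ) * h2

lemma aQ (a n : ℕ) : (a : ℤ) * Q a n = (n + 1) * R a n := by
  rcases a with _ | a
  · simp [R]
  · unfold Q R
    have h3 := ch1 (n + a + 1) a
    push_cast at h3 ⊢
    linear_combination (n.choose a : ℤ) * h3

/-- `W_{ab} / 2` for `N = n + 1` -/
def z (a b n : ℕ) : ℤ := P a n * P b n - Q a n * Q b n

lemma W_eq (a b n : ℕ) : f a (n + 1) * f b n + f a n * f b (n + 1) = 2 * z a b n := by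
  rw [f_eq a n, f_eq b n, f_eq' a n, f_eq' b n, z]; ring

/-- the quotient -/
def V (a b n : ℕ) : ℤ := P a n * Q b n - Q a n * P b n - Q a n * R b n + R a n * Q b n

lemma z_mul (a b n : ℕ) : ((b : ℤ) - a) * z a b n = (n + 1) * V a b n := by
  have h1 := aP a n
  have h2 := aP b n
  have h3 := aQ a n
  have h4 := aQ b n
  rw [z, V]
  linear_combination P a n * h2 - P b n * h1 - Q a n * h4 + Q b n * h3

/-- `∑_{k < n} (2 k + 1) (-1)^k g(k) h(k)` -/
def Y (g h : ℕ → ℤ) (n : ℕ) : ℤ := ∑ k ∈ range n, (2 * (k : ℤ) + 1) * (-1) ^ k * (g k * h k)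

lemma Y_rec (a b : ℕ) : ∀ n, Y (f a) (f b) (n + 1) + Y (f' a) (f b) (n + 1) +
    Y (f a) (f' b) (n + 1) = (-1) ^ n * ((n + 1) * z a b n)
  | 0 => by
      have h0 : ∀ c, f c 0 = if c = 0 then 1 else 0 := by
        intro c; rcases c with _ | c
        · simp [f]
        · simp [f]
      have h0' : ∀ c, f' c 0 = if c = 1 then 1 else 0 := by
        intro c; rcases c with _ | c
        · simp
        · rw [f'_succ, h0]; simp
      have h1 := W_eq a b 0
      have h2 : ∀ c, f c 1 = f c 0 + 2 * f' c 0 := by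
        intro c
        rcases c with _ | c
        · simp [f]
        · rcases c with _ | c
          · simp [f]
          · rw [f'_succ, f_gt (by omega), f_gt (by omega), f_gt (by omega)]; ring
      rw [h2 a, h2 b] at h1
      simp only [Y, zero_add, sum_range_one, pow_zero, Nat.cast_zero, mul_zero, one_mul]
      linarith
  | (n + 1) => by
      have ih := Y_rec a b n
      have h1 := W_eq a b n
      have h2 := W_eq a b (n + 1)
      have h3 := rec3 a n
      have h4 := rec3 b n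
      have hs : ∀ g h : ℕ → ℤ, Y g h (n + 1 + 1) = Y g h (n + 1) +
          (2 * ((n : ℤ) + 1) + 1) * (-1) ^ (n + 1) * (g (n + 1) * h (n + 1)) := by
        intro g h
        rw [Y, Y, sum_range_succ _ (n + 1)]
        push_cast; ring
      rw [hs, hs, hs]
      push_cast
      have h5 : (2 : ℤ) * ((Y (f a) (f b) (n + 1) + (2 * ((n : ℤ) + 1) + 1) * (-1) ^ (n + 1) *
          (f a (n + 1) * f b (n + 1))) + (Y (f' a) (f b) (n + 1) +
          (2 * ((n : ℤ) + 1) + 1) * (-1) ^ (n + 1) * (f' a (n + 1) * f b (n + 1))) +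
          (Y (f a) (f' b) (n + 1) + (2 * ((n : ℤ) + 1) + 1) * (-1) ^ (n + 1) *
          (f a (n + 1) * f' b (n + 1)))) =
          2 * ((-1) ^ (n + 1) * (((n : ℤ) + 1 + 1) * z a b (n + 1))) := by
        rw [pow_succ]
        linear_combination 2 * ih - (-1) ^ n * ((n : ℤ) + 1) * h1 -
          (-1) ^ n * ((n : ℤ) + 2) * h2 + (-1) ^ n * f b (n + 1) * h3 +
          (-1) ^ n * f a (n + 1) * h4
      exact mul_left_cancel₀ two_ne_zero h5

end Q279.AP
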