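import Pool.Agent.Q279.AP.Poly

/-!
# Sun's conjecture on the `p`-adic order of the alternating sums of `A_k(x)` and `D_k(x)^3`
-/

set_option autoImplicit false

namespace Q279.AP

open Finset Polynomial

lemma sum_cast_dvd {m : ℤ} {ι : Type*} (s : Finset ι) (g : ι → ℤ) (w : ι → ℤ[X])
    (h : ∀ i ∈ s, m ∣ g i) : ((m : ℤ[X])) ∣ ∑ i ∈ s, ((g i : ℤ) : ℤ[X]) * w i :=
  dvd_sum fun i hi => Dvd.dvd.mul_right (by
    obtain ⟨y, hy⟩ := h i hi
    exact ⟨(y : ℤ[X]), by rw [hy]; push_cast; ring⟩) _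

/-- The Apery sum divided by `n + 1` is a polynomial with integer coefficients. -/
lemma polyA (n : ℕ) : ∃ F : ℤ[X], ∑ k ∈ range (n + 1), (2 * (k : ℤ[X]) + 1) * (-1) ^ k * A k X =
    ((n : ℤ[X]) + 1) * F := by
  have h : (((n : ℤ) + 1 : ℤ) : ℤ[X]) ∣ ∑ k ∈ range (n + 1),
      (2 * (k : ℤ[X]) + 1) * (-1) ^ k * A k X := by
    rw [sumA]
    exact sum_cast_dvd _ _ _ fun a _ => Y_dvd n (a + a) a a rfl
  obtain ⟨F, hF⟩ := h
  exact ⟨F, by rw [hF]; push_cast; ring⟩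

/-- The Delannoy sum divided by `n + 1` is a polynomial with integer coefficients. -/
lemma polyD (n : ℕ) : ∃ F : ℤ[X],
    ∑ k ∈ range (n + 1), (2 * (k : ℤ[X]) + 1) * (-1) ^ k * D k X ^ 3 =
    ((n : ℤ[X]) + 1) * F := by
  have h : (((n : ℤ) + 1 : ℤ) : ℤ[X]) ∣ ∑ k ∈ range (n + 1),
      (2 * (k : ℤ[X]) + 1) * (-1) ^ k * D k X ^ 3 := by
    rw [sumD]
    refine dvd_sum fun a _ => dvd_sum fun b _ => ?_
    exact sum_cast_dvd _ _ _ fun d _ => Y3_dvd n a b d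
  obtain ⟨F, hF⟩ := h
  exact ⟨F, by rw [hF]; push_cast; ring⟩

variable {p : ℕ} [hp : Fact p.Prime]

lemma v_nonneg (z : ℤ_[p]) : 0 ≤ Padic.addValuation (z : ℚ_[p]) := by
  by_cases hz : z = 0
  · rw [hz, PadicInt.coe_zero, AddValuation.map_zero]; exact le_top
  · rw [Padic.addValuation.apply (PadicInt.coe_ne_zero.2 hz)]
    have := z.valuation_coe_nonneg
    exact_mod_cast this

/-- The common argument. -/
lemma core (Sm : ℤ_[p] → ℤ_[p]) (n : ℕ) (F : ℤ[X])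
    (hF : ∀ y, Sm y = ((n : ℤ_[p]) + 1) * (F.map (Int.castRingHom ℤ_[p])).eval y)
    (e : ℤ) (he : e = 1 ∨ e = -1)
    (hE : ∀ q : ℤ_[p], 4 * q = 1 → ∃ E, Sm (e * q) = ((n : ℤ_[p]) + 1) ^ 2 * E) (x : ℤ_[p]) :
    min (Padic.addValuation (((n + 1 : ℕ) : ℚ_[p]))) (Padic.addValuation (4 * (x : ℚ_[p]) - (e : ℚ_[p]))) ≤
      Padic.addValuation ((1 / ((n + 1 : ℕ) : ℚ_[p])) * ((Sm x : ℤ_[p]) : ℚ_[p])) := by
  have hn : ((n : ℤ_[p]) + 1) ≠ 0 := by exact_mod_cast n.succ_ne_zero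
  have hn' : (((n + 1 : ℕ)) : ℚ_[p]) ≠ 0 := by exact_mod_cast n.succ_ne_zero
  have hL : (1 / ((n + 1 : ℕ) : ℚ_[p])) * ((Sm x : ℤ_[p]) : ℚ_[p]) =
      (((F.map (Int.castRingHom ℤ_[p])).eval x : ℤ_[p]) : ℚ_[p]) := by
    rw [hF x, PadicInt.coe_mul]
    have : ((((n : ℤ_[p]) + 1 : ℤ_[p])) : ℚ_[p]) = ((n + 1 : ℕ) : ℚ_[p]) := by push_cast; rfl
    rw [this]
    field_simp
  rw [hL]
  by_cases h2 : p = 2
  · have h4 : Padic.addValuation (4 * (x : ℚ_[p]) - (e : ℚ_[p])) = 0 := by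
      have hn1 : ‖4 * (x : ℚ_[p]) - (e : ℚ_[p])‖ = 1 := by
        have e1 : ‖((4 : ℚ_[p]) * (x : ℚ_[p]))‖ < 1 := by
          rw [norm_mul]
          have h5 : ‖((4 : ℕ) : ℚ_[p])‖ < 1 := by
            rw [Padic.norm_natCast_lt_one_iff, h2]; norm_num
          have h6 : ‖(x : ℚ_[p])‖ ≤ 1 := x.2
          have h7 : ‖(4 : ℚ_[p])‖ < 1 := by exact_mod_cast h5
          calc ‖(4 : ℚ_[p])‖ * ‖(x : ℚ_[p])‖ ≤ ‖(4 : ℚ_[p])‖ * 1 :=
                mul_le_mul_of_nonneg_left h6 (norm_nonneg _)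
            _ < 1 := by rw [mul_one]; exact h7
        have e2 : ‖((e : ℤ) : ℚ_[p])‖ = 1 := by
          rcases he with h | h <;> simp [h]
        rw [sub_eq_add_neg, Padic.add_eq_max_of_ne (by rw [norm_neg, e2]; exact e1.ne), norm_neg, e2]
        exact max_eq_right e1.le
      have hne : (4 * (x : ℚ_[p]) - (e : ℚ_[p])) ≠ 0 := by
        intro h; rw [h] at hn1; simp at hn1
      rw [Padic.addValuation.apply hne]
      rw [Padic.norm_eq_zpow_neg_valuation hne] at hn1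
      have hp1 : (1 : ℝ) < p := by exact_mod_cast hp.out.one_lt
      have := (zpow_eq_one_iff_right₀ (by positivity) hp1.ne').1 hn1
      have h0 : (4 * (x : ℚ_[p]) - (e : ℚ_[p])).valuation = 0 := by omega
      rw [h0]; rfl
    rw [h4]
    exact (min_le_right _ _).trans (v_nonneg _)
  · have hu : IsUnit (4 : ℤ_[p]) := by
      rw [PadicInt.isUnit_iff]
      have : ‖((4 : ℕ) : ℤ_[p])‖ = 1 := by
        rw [PadicInt.norm_natCast_eq_one_iff]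
        rw [show (4 : ℕ) = 2 ^ 2 by norm_num]
        exact Nat.Coprime.pow_right 2 ((Nat.coprime_primes hp.out Nat.prime_two).2 h2)
      exact_mod_cast this
    obtain ⟨q, hq⟩ := hu.exists_right_inv
    obtain ⟨E, hE⟩ := hE q hq
    rw [hF, pow_two, mul_assoc] at hE
    have hE' := mul_left_cancel₀ hn hE
    obtain ⟨G, hG⟩ := Polynomial.sub_dvd_eval_sub x (e * q) (F.map (Int.castRingHom ℤ_[p]))
    have h1 : (F.map (Int.castRingHom ℤ_[p])).eval x =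
        ((n : ℤ_[p]) + 1) * E + (4 * x - e) * (q * G) := by
      linear_combination hG + hE' - x * G * hq
    rw [h1]
    have h2 : ((((n : ℤ_[p]) + 1) * E + (4 * x - e) * (q * G) : ℤ_[p]) : ℚ_[p]) =
        ((n + 1 : ℕ) : ℚ_[p]) * (E : ℚ_[p]) + (4 * (x : ℚ_[p]) - (e : ℚ_[p])) * ((q * G : ℤ_[p]) : ℚ_[p]) := by
      push_cast; rfl
    rw [h2]
    refine le_trans ?_ (AddValuation.map_add _ _ _)
    rw [AddValuation.map_mul, AddValuation.map_mul]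
    refine min_le_min ?_ ?_
    · exact le_add_of_nonneg_right (v_nonneg _)
    · exact le_add_of_nonneg_right (v_nonneg _)

lemma eval_sumA (F : ℤ[X]) (n : ℕ)
    (hF : ∑ k ∈ range (n + 1), (2 * (k : ℤ[X]) + 1) * (-1) ^ k * A k X = ((n : ℤ[X]) + 1) * F)
    (y : ℤ_[p]) : ∑ k ∈ range (n + 1), (2 * (k : ℤ_[p]) + 1) * (-1) ^ k * A k y =
      ((n : ℤ_[p]) + 1) * (F.map (Int.castRingHom ℤ_[p])).eval y := by
  have h := congrArg (Polynomial.eval₂RingHom (Int.castRingHom ℤ_[p]) y) hF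
  rw [map_sum] at h
  simp only [map_mul, map_add, map_pow, map_neg, map_one, map_natCast, A_map] at h
  simp only [Polynomial.coe_eval₂RingHom, Polynomial.eval₂_eq_eval_map] at h
  simpa using h

lemma eval_sumD (F : ℤ[X]) (n : ℕ)
    (hF : ∑ k ∈ range (n + 1), (2 * (k : ℤ[X]) + 1) * (-1) ^ k * D k X ^ 3 =
      ((n : ℤ[X]) + 1) * F)
    (y : ℤ_[p]) : ∑ k ∈ range (n + 1), (2 * (k : ℤ_[p]) + 1) * (-1) ^ k * D k y ^ 3 =
      ((n : ℤ_[p]) + 1) * (F.map (Int.castRingHom ℤ_[p])).eval y := by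
  have h := congrArg (Polynomial.eval₂RingHom (Int.castRingHom ℤ_[p]) y) hF
  rw [map_sum] at h
  simp only [map_mul, map_add, map_pow, map_neg, map_one, map_natCast, D_map] at h
  simp only [Polynomial.coe_eval₂RingHom, Polynomial.eval₂_eq_eval_map] at h
  simpa using h

lemma coe_A (k : ℕ) (x : ℤ_[p]) : ((A k x : ℤ_[p]) : ℚ_[p]) = A k (x : ℚ_[p]) :=
  A_map (PadicInt.Coe.ringHom) k x

lemma coe_D (k : ℕ) (x : ℤ_[p]) : ((D k x : ℤ_[p]) : ℚ_[p]) = D k (x : ℚ_[p]) :=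
  D_map (PadicInt.Coe.ringHom) k x

/-- Q1. -/
theorem mainA (n : ℕ) (hn : 1 ≤ n) (x : ℤ_[p]) :
    min (Padic.addValuation (n : ℚ_[p])) (Padic.addValuation (4 * (x : ℚ_[p]) - 1)) ≤
      Padic.addValuation ((1 / (n : ℚ_[p])) *
        ∑ k ∈ range n, (2 * (k : ℚ_[p]) + 1) * (-1) ^ k * A k (x : ℚ_[p])) := by
  obtain ⟨n, rfl⟩ : ∃ m, n = m + 1 := ⟨n - 1, by omega⟩
  obtain ⟨F, hF⟩ := polyA n
  have h := core (p := p) (fun y => ∑ k ∈ range (n + 1), (2 * (k : ℤ_[p]) + 1) * (-1) ^ k * A k y)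
    n F (fun y => eval_sumA F n hF y) 1 (Or.inl rfl)
    (fun q hq => by
      obtain ⟨E, hE⟩ := A_val hq n
      exact ⟨E, by rw [← hE]; simp⟩) x
  have e : ((∑ k ∈ range (n + 1), (2 * (k : ℤ_[p]) + 1) * (-1) ^ k * A k x : ℤ_[p]) : ℚ_[p]) =
      ∑ k ∈ range (n + 1), (2 * (k : ℚ_[p]) + 1) * (-1) ^ k * A k (x : ℚ_[p]) := by
    rw [PadicInt.coe_sum]
    refine sum_congr rfl fun k _ => ?_
    push_cast
    rw [coe_A, show ((2 : ℤ_[p]) : ℚ_[p]) = 2 from rfl]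
  simp only [e] at h
  simpa using h

/-- Q2. -/
theorem mainD (n : ℕ) (hn : 1 ≤ n) (x : ℤ_[p]) :
    min (Padic.addValuation (n : ℚ_[p])) (Padic.addValuation (4 * (x : ℚ_[p]) + 1)) ≤
      Padic.addValuation ((1 / (n : ℚ_[p])) *
        ∑ k ∈ range n, (2 * (k : ℚ_[p]) + 1) * (-1) ^ k * D k (x : ℚ_[p]) ^ 3) := by
  obtain ⟨n, rfl⟩ : ∃ m, n = m + 1 := ⟨n - 1, by omega⟩
  obtain ⟨F, hF⟩ := polyD n
  have h := core (p := p)
    (fun y => ∑ k ∈ range (n + 1), (2 * (k : ℤ_[p]) + 1) * (-1) ^ k * D k y ^ 3)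
    n F (fun y => eval_sumD F n hF y) (-1) (Or.inr rfl)
    (fun q hq => by
      refine ⟨4 * (-1) ^ (n + 1) * (D (n + 1) (-q) * D n (-q) * (D (n + 1) (-q) - D n (-q))), ?_⟩
      have := D_val hq n
      simp only [Int.cast_neg, Int.cast_one, neg_mul, one_mul] at this ⊢
      rw [this]; ring) x
  have e : ((∑ k ∈ range (n + 1), (2 * (k : ℤ_[p]) + 1) * (-1) ^ k * D k x ^ 3 : ℤ_[p]) : ℚ_[p]) =
      ∑ k ∈ range (n + 1), (2 * (k : ℚ_[p]) + 1) * (-1) ^ k * D k (x : ℚ_[p]) ^ 3 := by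
    rw [PadicInt.coe_sum]
    refine sum_congr rfl fun k _ => ?_
    push_cast
    rw [coe_D, show ((2 : ℤ_[p]) : ℚ_[p]) = 2 from rfl]
  simp only [e] at h
  simpa using h

end Q279.AP
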