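import Pool.Agent.Q279.AP.Sums

/-!
# The polynomials `A_n(x)` and `D_n(x)`
-/

set_option autoImplicit false

namespace Q279.AP

open Finset

section ring

variable {S : Type*} [CommRing S]

/-- `A_n(x) = ∑_k C(n, k)² C(n + k, k)² x^k`. -/
def A (n : ℕ) (x : S) : S :=
  ∑ k ∈ range (n + 1), (n.choose k : S) ^ 2 * ((n + k).choose k : S) ^ 2 * x ^ k

/-- `D_n(x) = ∑_k C(n, k) C(n + k, k) x^k`. -/
def D (n : ℕ) (x : S) : S :=
  ∑ k ∈ range (n + 1), (n.choose k : S) * ((n + k).choose k : S) * x ^ k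

lemma f_cast (a n : ℕ) : ((f a n : ℤ) : S) = (n.choose a : S) * ((n + a).choose a : S) := by
  unfold f; push_cast; ring

lemma A_eq {k N : ℕ} (h : k < N) (x : S) : A k x = ∑ a ∈ range N, ((f a k : ℤ) : S) ^ 2 * x ^ a := by
  unfold A
  rw [← sum_subset (range_subset_range.2 (show k + 1 ≤ N by omega))]
  · refine sum_congr rfl fun a _ => ?_
    rw [f_cast]; ring
  · intro a _ ha
    rw [f_gt (by rw [mem_range] at ha; omega)]; simp

lemma D_eq {k N : ℕ} (h : k < N) (x : S) : D k x = ∑ a ∈ range N, ((f a k : ℤ) : S) * x ^ a := by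
  unfold D
  rw [← sum_subset (range_subset_range.2 (show k + 1 ≤ N by omega))]
  · refine sum_congr rfl fun a _ => ?_
    rw [f_cast]
  · intro a _ ha
    rw [f_gt (by rw [mem_range] at ha; omega)]; simp

lemma A_map {S' : Type*} [CommRing S'] (g : S →+* S') (n : ℕ) (x : S) : g (A n x) = A n (g x) := by
  unfold A
  rw [map_sum]
  refine sum_congr rfl fun k _ => ?_
  simp only [map_mul, map_pow, map_natCast]

lemma D_map {S' : Type*} [CommRing S'] (g : S →+* S') (n : ℕ) (x : S) : g (D n x) = D n (g x) := by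
  unfold D
  rw [map_sum]
  refine sum_congr rfl fun k _ => ?_
  simp only [map_mul, map_pow, map_natCast]

lemma sumA (n : ℕ) (x : S) :
    ∑ k ∈ range (n + 1), (2 * (k : S) + 1) * (-1) ^ k * A k x =
      ∑ a ∈ range (n + 1), ((Y (f a) (f a) (n + 1) : ℤ) : S) * x ^ a := by
  have h : ∀ k ∈ range (n + 1), (2 * (k : S) + 1) * (-1) ^ k * A k x =
      ∑ a ∈ range (n + 1), (2 * (k : S) + 1) * (-1) ^ k * (((f a k : ℤ) : S) ^ 2 * x ^ a) := by
    intro k hk
    rw [A_eq (mem_range.1 hk), mul_sum]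
  rw [sum_congr rfl h, sum_comm]
  refine sum_congr rfl fun a _ => ?_
  unfold Y
  push_cast
  rw [sum_mul]
  refine sum_congr rfl fun k _ => ?_
  ring

lemma sumD (n : ℕ) (x : S) :
    ∑ k ∈ range (n + 1), (2 * (k : S) + 1) * (-1) ^ k * D k x ^ 3 =
      ∑ a ∈ range (n + 1), ∑ b ∈ range (n + 1), ∑ d ∈ range (n + 1),
        ((∑ k ∈ range (n + 1), (2 * (k : ℤ) + 1) * (-1) ^ k * (f a k * f b k * f d k) : ℤ) : S) *
          x ^ (a + b + d) := by
  have h : ∀ k ∈ range (n + 1), (2 * (k : S) + 1) * (-1) ^ k * D k x ^ 3 =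
      ∑ a ∈ range (n + 1), ∑ b ∈ range (n + 1), ∑ d ∈ range (n + 1),
        (2 * (k : S) + 1) * (-1) ^ k * ((((f a k : ℤ) : S) * ((f b k : ℤ) : S) *
          ((f d k : ℤ) : S)) * x ^ (a + b + d)) := by
    intro k hk
    rw [D_eq (mem_range.1 hk), pow_succ, pow_two, sum_mul_sum, sum_mul, mul_sum]
    refine sum_congr rfl fun a _ => ?_
    rw [sum_mul, mul_sum]
    refine sum_congr rfl fun b _ => ?_
    rw [mul_sum, mul_sum]
    refine sum_congr rfl fun d _ => ?_
    ring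
  rw [sum_congr rfl h, sum_comm]
  refine sum_congr rfl fun a _ => ?_
  rw [sum_comm]
  refine sum_congr rfl fun b _ => ?_
  rw [sum_comm]
  refine sum_congr rfl fun d _ => ?_
  push_cast
  rw [sum_mul]
  refine sum_congr rfl fun k _ => ?_
  ring

lemma D_rec (n : ℕ) (x : S) : ((n : S) + 2) * D (n + 2) x + (n + 1) * D n x =
    (2 * n + 3) * ((1 + 2 * x) * D (n + 1) x) := by
  rw [D_eq (show n + 2 < n + 3 by omega), D_eq (show n < n + 3 by omega)]
  have e1 : (1 + 2 * x) * D (n + 1) x = ∑ a ∈ range (n + 3),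
      (((f a (n + 1) : ℤ) : S) + 2 * ((f' a (n + 1) : ℤ) : S)) * x ^ a := by
    have e2 : x * D (n + 1) x = ∑ a ∈ range (n + 3), ((f' a (n + 1) : ℤ) : S) * x ^ a := by
      rw [sum_range_succ', D_eq (show n + 1 < n + 2 by omega), mul_sum]
      simp only [f'_zero, f'_succ, Int.cast_zero, zero_mul, add_zero]
      refine sum_congr rfl fun a _ => ?_
      rw [pow_succ]; ring
    rw [add_mul, one_mul, mul_assoc, e2, D_eq (show n + 1 < n + 3 by omega), mul_sum,
      ← sum_add_distrib]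
    refine sum_congr rfl fun a _ => ?_
    ring
  rw [e1, mul_sum, mul_sum, mul_sum, ← sum_add_distrib]
  refine sum_congr rfl fun a _ => ?_
  have := congrArg (fun y : ℤ => (y : S)) (rec3 a n)
  push_cast at this
  linear_combination x ^ a * this

/-- The value of the Apery sum at `1/4`. -/
lemma A_val {q : S} (hq : 4 * q = 1) (n : ℕ) :
    ∃ E : S, ∑ k ∈ range (n + 1), (2 * (k : S) + 1) * (-1) ^ k * A k q = ((n : S) + 1) ^ 2 * E := by
  obtain ⟨E, hE⟩ := t_zero hq n
  refine ⟨E, ?_⟩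
  rw [sumA, ← hE]
  rfl

/-- The value of the cubic Delannoy sum at `-1/4`. -/
lemma D_val {q : S} (hq : 4 * q = 1) : ∀ n : ℕ,
    ∑ k ∈ range (n + 1), (2 * (k : S) + 1) * (-1) ^ k * D k (-q) ^ 3 =
      4 * (-1) ^ (n + 1) * ((n : S) + 1) ^ 2 *
        (D (n + 1) (-q) * D n (-q) * (D (n + 1) (-q) - D n (-q)))
  | 0 => by
      have h0 : D 0 (-q) = 1 := by simp [D]
      have h1 : D 1 (-q) = 1 - 2 * q := by
        simp [D, sum_range_succ]; ring
      simp only [zero_add, sum_range_one, Nat.cast_zero, mul_zero, pow_zero, pow_one, h0, h1]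
      linear_combination (4 * q - 1) * hq
  | (n + 1) => by
      have ih := D_val hq n
      have h := D_rec n (-q)
      rw [sum_range_succ, ih]
      have h2 : 2 * (((n : S) + 2) * D (n + 2) (-q)) =
          (2 * n + 3) * D (n + 1) (-q) - 2 * ((n + 1) * D n (-q)) := by
        linear_combination 2 * h - (2 * (n : S) + 3) * D (n + 1) (-q) * hq
      obtain ⟨u, hu⟩ : ∃ u, u = D (n + 2) (-q) := ⟨_, rfl⟩
      obtain ⟨v, hv⟩ : ∃ v, v = D (n + 1) (-q) := ⟨_, rfl⟩
      obtain ⟨w, hw⟩ : ∃ w, w = D n (-q) := ⟨_, rfl⟩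
      rw [show n + 1 + 1 = n + 2 by ring, ← hu, ← hv, ← hw]
      rw [← hu, ← hv, ← hw] at h2
      push_cast
      rw [show n + 2 = (n + 1) + 1 by ring, pow_succ (-1 : S) (n + 1)]
      linear_combination (-1) ^ (n + 1) * v *
        (2 * (((n : S) + 2) * u) + ((2 * n + 3) * v - 2 * ((n + 1) * w)) -
          2 * ((n : S) + 2) * v) * h2

end ring

end Q279.AP
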