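import Pool.Agent.Q279.AP.Core

/-!
# Divisibility of the sums and their values at `1/4` and `-1/4`
-/

set_option autoImplicit false

namespace Q279.AP

open Finset Polynomial

lemma Y_f'0 (h : ℕ → ℤ) (n : ℕ) : Y (f' 0) h n = 0 := by simp [Y]

lemma Y_f'0r (h : ℕ → ℤ) (n : ℕ) : Y h (f' 0) n = 0 := by simp [Y]

lemma Y_left {a b n : ℕ} (h : n < a) : Y (f a) (f b) (n + 1) = 0 := by
  unfold Y
  refine sum_eq_zero fun k hk => ?_
  rw [f_gt (show k < a by have := mem_range.1 hk; omega)]; ring

lemma Y_right {a b n : ℕ} (h : n < b) : Y (f a) (f b) (n + 1) = 0 := by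
  unfold Y
  refine sum_eq_zero fun k hk => ?_
  rw [f_gt (a := b) (show k < b by have := mem_range.1 hk; omega)]; ring

/-- `n + 1` divides the double sums. -/
lemma Y_dvd (n : ℕ) : ∀ s a b : ℕ, a + b = s → ((n : ℤ) + 1) ∣ Y (f a) (f b) (n + 1) := by
  intro s
  induction s using Nat.strong_induction_on with
  | _ s ih =>
    intro a b hab
    have h := Y_rec a b n
    have h1 : ((n : ℤ) + 1) ∣ Y (f' a) (f b) (n + 1) := by
      rcases a with _ | a
      · rw [Y_f'0]; exact dvd_zero _
      · exact ih (a + b) (by omega) a b rfl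
    have h2 : ((n : ℤ) + 1) ∣ Y (f a) (f' b) (n + 1) := by
      rcases b with _ | b
      · rw [Y_f'0r]; exact dvd_zero _
      · exact ih (a + b) (by omega) a b rfl
    have h3 : Y (f a) (f b) (n + 1) = (-1) ^ n * (((n : ℤ) + 1) * z a b n) -
        Y (f' a) (f b) (n + 1) - Y (f a) (f' b) (n + 1) := by linear_combination h
    rw [h3]
    refine dvd_sub (dvd_sub ?_ h1) h2
    exact Dvd.intro_left ((-1) ^ n * z a b n) (by ring)

/-- the structure constants -/
def c (a b m : ℕ) : ℤ := (m.choose a : ℤ) * (m.choose b : ℤ) * ((a + b).choose m : ℤ)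

lemma c_rec (a b m : ℕ) : ((b : ℤ) + 1) ^ 2 * c a (b + 1) (m + 1) =
    ((m : ℤ) + 1) ^ 2 * c a b m + (((m : ℤ) + 1) * (m + 2) - b * (b + 1)) * c a b (m + 1) := by
  unfold c
  have h1 := ch1 (m + 1) b
  have h2 := ch3 m a
  have h3 := ch3 m b
  have h4 := ch1 (a + b) m
  have h5 : (((a + b) + 1).choose (m + 1) : ℤ) = ((a + b).choose m : ℤ) +
    ((a + b).choose (m + 1) : ℤ) := by rw [Nat.choose_succ_succ]; push_cast; ring
  rw [show a + (b + 1) = a + b + 1 by ring, h5]
  push_cast at h1 h4 ⊢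
  generalize ((m + 1).choose a : ℤ) = A at *
  generalize ((m + 1).choose b : ℤ) = B at *
  generalize ((m + 1).choose (b + 1) : ℤ) = B' at *
  generalize (m.choose a : ℤ) = A0 at *
  generalize (m.choose b : ℤ) = B0 at *
  generalize ((a + b).choose m : ℤ) = X at *
  generalize ((a + b).choose (m + 1) : ℤ) = X' at *
  linear_combination ((b : ℤ) + 1) * A * (X + X') * h1 + (m + 1 - b) * B * X * h2 +
    A0 * (m + 1) * X * h3 - A * B * (m + 1 - b) * h4

/-- products of the basis functions -/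
lemma prod_f (a : ℕ) : ∀ b k : ℕ, f a k * f b k = ∑ m ∈ range (a + b + 1), c a b m * f m k
  | 0, k => by
      rw [f_zero, mul_one, add_zero, sum_range_succ, sum_eq_zero]
      · simp [c]
      · intro m hm
        rw [mem_range] at hm
        simp [c, Nat.choose_eq_zero_of_lt hm]
  | (b + 1), k => by
      have ih := prod_f a b k
      have h0 : ((b : ℤ) + 1) ^ 2 ≠ 0 := by positivity
      apply mul_left_cancel₀ h0
      have hb := alpha b k
      have e1 : ((b : ℤ) + 1) ^ 2 * (f a k * f (b + 1) k) =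
          ((k : ℤ) * (k + 1) - b * (b + 1)) * ∑ m ∈ range (a + b + 1), c a b m * f m k := by
        rw [← ih]
        linear_combination f a k * hb
      rw [e1, mul_sum, mul_sum]
      have e2 : ∀ m, ((k : ℤ) * (k + 1) - b * (b + 1)) * (c a b m * f m k) =
          ((m : ℤ) + 1) ^ 2 * c a b m * f (m + 1) k +
            ((m : ℤ) * (m + 1) - b * (b + 1)) * c a b m * f m k := by
        intro m
        have hm := alpha m k
        linear_combination -(c a b m) * hm
      rw [sum_congr rfl fun m _ => e2 m, sum_add_distrib]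
      rw [show a + (b + 1) + 1 = (a + b + 1) + 1 by ring, sum_range_succ' _ (a + b + 1)]
      have e3 : ((b : ℤ) + 1) ^ 2 * (c a (b + 1) 0 * f 0 k) =
          ((0 : ℤ) - b * (b + 1)) * c a b 0 * f 0 k := by
        rcases b with _ | b
        · simp [c]
        · simp [c]
      have e4 : ∑ m ∈ range (a + b + 1), ((m : ℤ) * (m + 1) - b * (b + 1)) * c a b m * f m k =
          ∑ m ∈ range (a + b + 1), (((m : ℤ) + 1) * (m + 2) - b * (b + 1)) * c a b (m + 1) *
            f (m + 1) k + ((0 : ℤ) - b * (b + 1)) * c a b 0 * f 0 k := by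
        have h1 := sum_range_succ' (fun m : ℕ => ((m : ℤ) * (m + 1) - b * (b + 1)) * c a b m *
          f m k) (a + b + 1)
        have h2 := sum_range_succ (fun m : ℕ => ((m : ℤ) * (m + 1) - b * (b + 1)) * c a b m *
          f m k) (a + b + 1)
        have h3 : c a b (a + b + 1) = 0 := by
          unfold c
          rw [Nat.choose_eq_zero_of_lt (show a + b < a + b + 1 by omega)]; simp
        rw [h3] at h2
        have h4 : ∀ m : ℕ, (((m + 1 : ℕ) : ℤ) * (((m + 1 : ℕ) : ℤ) + 1) - b * (b + 1)) *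
            c a b (m + 1) * f (m + 1) k = (((m : ℤ) + 1) * (m + 2) - b * (b + 1)) *
            c a b (m + 1) * f (m + 1) k := by
          intro m; push_cast; ring
        rw [sum_congr rfl fun m _ => h4 m] at h1
        push_cast at h1 h2
        linarith
      rw [e4, ← add_assoc, ← sum_add_distrib, e3]
      congr 1
      refine sum_congr rfl fun m _ => ?_
      have := c_rec a b m
      linear_combination -(f (m + 1) k) * this

/-- triple sums -/
lemma Y3_dvd (n a b d : ℕ) : ((n : ℤ) + 1) ∣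
    ∑ k ∈ range (n + 1), (2 * (k : ℤ) + 1) * (-1) ^ k * (f a k * f b k * f d k) := by
  have h : ∑ k ∈ range (n + 1), (2 * (k : ℤ) + 1) * (-1) ^ k * (f a k * f b k * f d k) =
      ∑ m ∈ range (a + b + 1), c a b m * Y (f m) (f d) (n + 1) := by
    unfold Y
    simp only [mul_sum]
    rw [sum_comm]
    refine sum_congr rfl fun k _ => ?_
    rw [prod_f a b k, sum_mul, mul_sum]
    refine sum_congr rfl fun m _ => ?_
    ring
  rw [h]
  exact dvd_sum fun m _ => Dvd.dvd.mul_left (Y_dvd n (m + d) m d rfl) _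

/-! ### The value of the Apery sum at `1/4` -/

section ring

variable {S : Type*} [CommRing S]

/-- diagonal sums -/
def t (q : S) (n r : ℕ) : S :=
  ∑ a ∈ range (n + 1), ((Y (f a) (f (a + r)) (n + 1) : ℤ) : S) * q ^ (a + r)

lemma t_big (q : S) {n r : ℕ} (h : n < r) : t q n r = 0 := by
  unfold t
  refine sum_eq_zero fun a _ => ?_
  rw [Y_right (by omega)]; simp

lemma t_rec {q : S} (hq : 4 * q = 1) (n i : ℕ) :
    t q n i + 4 * t q n (i + 1) + 4 * t q n (i + 2) =
      4 * ((-1) ^ n * ((n : S) + 1) * ∑ a ∈ range (n + 1),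
        q ^ (a + (i + 1)) * ((z a (a + (i + 1)) n : ℤ) : S)) := by
  have h1 : ∑ a ∈ range (n + 1), q ^ (a + (i + 1)) *
      (((Y (f a) (f (a + (i + 1))) (n + 1) : ℤ) : S) +
        ((Y (f' a) (f (a + (i + 1))) (n + 1) : ℤ) : S) +
        ((Y (f a) (f' (a + (i + 1))) (n + 1) : ℤ) : S)) =
      (-1) ^ n * ((n : S) + 1) * ∑ a ∈ range (n + 1),
        q ^ (a + (i + 1)) * ((z a (a + (i + 1)) n : ℤ) : S) := by
    rw [mul_sum]
    refine sum_congr rfl fun a _ => ?_
    have := congrArg (fun y : ℤ => (y : S)) (Y_rec a (a + (i + 1)) n)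
    push_cast at this
    rw [this]; ring
  rw [← h1]
  simp only [mul_add]
  rw [sum_add_distrib, sum_add_distrib]
  have e1 : ∑ a ∈ range (n + 1), q ^ (a + (i + 1)) *
      ((Y (f a) (f (a + (i + 1))) (n + 1) : ℤ) : S) = t q n (i + 1) := by
    unfold t
    exact sum_congr rfl fun a _ => mul_comm _ _
  have e3 : ∑ a ∈ range (n + 1), q ^ (a + (i + 1)) *
      ((Y (f a) (f' (a + (i + 1))) (n + 1) : ℤ) : S) = q * t q n i := by
    unfold t
    rw [mul_sum]
    refine sum_congr rfl fun a _ => ?_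
    rw [show a + (i + 1) = (a + i) + 1 by ring]
    have : f' (a + i + 1) = f (a + i) := by funext k; rfl
    rw [this]; ring
  have e2 : ∑ a ∈ range (n + 1), q ^ (a + (i + 1)) *
      ((Y (f' a) (f (a + (i + 1))) (n + 1) : ℤ) : S) = t q n (i + 2) := by
    unfold t
    rw [sum_range_succ', sum_range_succ]
    rw [Y_f'0, Y_right (a := n) (b := n + (i + 2)) (by omega)]
    simp only [Int.cast_zero, mul_zero, add_zero, zero_mul]
    refine sum_congr rfl fun a _ => ?_
    have : f' (a + 1) = f a := by funext k; rfl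
    rw [this, show a + 1 + (i + 1) = a + (i + 2) by ring, mul_comm]
  rw [e1, e2, e3]
  linear_combination -(t q n i) * hq

lemma t_tel (q : S) (n : ℕ) : ∀ I : ℕ,
    ∑ i ∈ range I, ((i : S) + 1) * (-2) ^ i *
      (t q n i + 4 * t q n (i + 1) + 4 * t q n (i + 2)) =
    t q n 0 - ((I : S) + 1) * (-2) ^ I * t q n I - 2 * I * (-2) ^ I * t q n (I + 1)
  | 0 => by simp
  | (I + 1) => by
      rw [sum_range_succ, t_tel q n I, pow_succ]
      push_cast
      ring

lemma t_zero {q : S} (hq : 4 * q = 1) (n : ℕ) : ∃ E : S, t q n 0 = ((n : S) + 1) ^ 2 * E := by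
  have h := t_tel q n (n + 1)
  rw [t_big q (show n < n + 1 by omega), t_big q (show n < n + 1 + 1 by omega), mul_zero,
    mul_zero, sub_zero, sub_zero] at h
  refine ⟨∑ i ∈ range (n + 1), (-2) ^ i * (4 * ((-1) ^ n * ∑ a ∈ range (n + 1),
        q ^ (a + (i + 1)) * ((V a (a + (i + 1)) n : ℤ) : S))), ?_⟩
  rw [← h, mul_sum]
  refine sum_congr rfl fun i _ => ?_
  rw [t_rec hq]
  have h2 : ((i : S) + 1) * ∑ a ∈ range (n + 1),
        q ^ (a + (i + 1)) * ((z a (a + (i + 1)) n : ℤ) : S) =
      ((n : S) + 1) * ∑ a ∈ range (n + 1),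
        q ^ (a + (i + 1)) * ((V a (a + (i + 1)) n : ℤ) : S) := by
    rw [mul_sum, mul_sum]
    refine sum_congr rfl fun a _ => ?_
    have := congrArg (fun y : ℤ => (y : S)) (z_mul a (a + (i + 1)) n)
    push_cast at this
    linear_combination q ^ (a + (i + 1)) * this
  linear_combination (-2) ^ i * 4 * (-1) ^ n * ((n : S) + 1) * h2

end ring

end Q279.AP
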